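import Pool.Agent.Q211.DL.Num

/-!
# Diffusion limited aggregation on the hypercube: asymptotics
-/

set_option autoImplicit false

namespace Pool.Agent.Q211.DL

open Finset Filter Topology

theorem ev_exp (δ : ℝ) (hδ : 0 < δ) :
    ∀ᶠ n : ℕ in atTop, ((n : ℝ) + 2) * Real.exp (-(n : ℝ)) ≤ δ := by
  have h1 : Tendsto (fun x : ℝ => x ^ 1 * Real.exp (-x)) atTop (𝓝 0) :=
    Real.tendsto_pow_mul_exp_neg_atTop_nhds_zero 1
  have h2 : Tendsto (fun n : ℕ => (n : ℝ) ^ 1 * Real.exp (-(n : ℝ))) atTop (𝓝 0) :=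
    h1.comp tendsto_natCast_atTop_atTop
  filter_upwards [h2.eventually_le_const (show (0 : ℝ) < δ / 3 by positivity),
    eventually_ge_atTop 1] with n hn hn1
  have h3 : (1 : ℝ) ≤ n := by exact_mod_cast hn1
  rw [pow_one] at hn
  have h4 := Real.exp_pos (-(n : ℝ))
  nlinarith

set_option maxHeartbeats 4000000 in
theorem asymp (ε δ : ℝ) (hε : 0 < ε) (hε1 : ε ≤ 1) (hδ : 0 < δ) :
    ∀ᶠ n : ℕ in atTop,
      Op^[⌊ε * 2 ^ n⌋₊] Fail ({∅} : Finset (Finset (Fin n))) ≤ δ := by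
  obtain ⟨L0, hL0⟩ := exists_nat_gt (32 / ε + 32 / (ε * δ) + 1)
  have hLpos : (1 : ℝ) < L0 := by
    have h1 : 0 < 32 / ε := by positivity
    have h2 : 0 < 32 / (ε * δ) := by positivity
    linarith
  have hLsq : (L0 : ℝ) ≤ (L0 : ℝ) ^ 2 := by nlinarith
  have hL1 : 4 / (L0 : ℝ) ^ 2 ≤ ε / 8 := by
    rw [div_le_div_iff₀ (by positivity) (by norm_num)]
    have h1 : 32 / ε ≤ (L0 : ℝ) ^ 2 := by
      have h2 : 0 < 32 / (ε * δ) := by positivity
      linarith
    rw [div_le_iff₀ hε] at h1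
    linarith
  have hL2 : 16 / (ε * (L0 : ℝ) ^ 2) ≤ δ / 2 := by
    rw [div_le_div_iff₀ (by positivity) (by norm_num)]
    have h1 : 32 / (ε * δ) ≤ (L0 : ℝ) ^ 2 := by
      have h2 : 0 < 32 / ε := by positivity
      linarith
    rw [div_le_iff₀ (by positivity)] at h1
    linarith
  have hLnat : 1 < L0 := by exact_mod_cast hLpos
  filter_upwards [growth (ε / 32) (L0 + 2) (by positivity) (by positivity),
    ev_exp (δ / 2) (by positivity), eventually_ge_atTop (L0 * L0 + 2)] with n hgr hexp hn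
  have hn2 : 2 ≤ n := by omega
  have hnR : (2 : ℝ) ≤ n := by exact_mod_cast hn2
  set r := Nat.sqrt n with hr
  have hrL : L0 ≤ r := Nat.le_sqrt.2 (by omega)
  have hr1 : r * r ≤ n := Nat.sqrt_le n
  have hr2 : n < (r + 1) * (r + 1) := Nat.lt_succ_sqrt n
  set D := L0 * r with hD
  have hr0 : 0 < r := by omega
  have hD0 : 0 < D := Nat.mul_pos (by omega) hr0
  have hDn : D ≤ n := (Nat.mul_le_mul_right r hrL).trans hr1
  -- the bound `n / D ^ 2 ≤ 4 / L0 ^ 2`
  have hnD : (n : ℝ) * 2 ^ n / (D : ℝ) ^ 2 ≤ 4 / (L0 : ℝ) ^ 2 * 2 ^ n := by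
    have h1 : n ≤ 4 * (r * r) := by nlinarith
    have h2 : (n : ℝ) ≤ 4 * ((r : ℝ) * r) := by exact_mod_cast h1
    have hr0' : (0 : ℝ) < r := by exact_mod_cast hr0
    rw [hD]
    push_cast
    rw [div_le_iff₀ (by positivity)]
    have h3 : 4 / (L0 : ℝ) ^ 2 * 2 ^ n * ((L0 : ℝ) * r) ^ 2 = 4 * ((r : ℝ) * r) * 2 ^ n := by
      field_simp
    rw [h3]
    exact mul_le_mul_of_nonneg_right h2 (by positivity)
  set j0 := (n - D) / 2 with hj0
  set j1 := (n + D + 1) / 2 with hj1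
  set m := j1 - j0 with hm
  have hj01 : j0 + m = j1 := by omega
  have hm0 : 0 < m := by omega
  have hmD : m ≤ D + 2 := by omega
  have hmn : m ≤ n + 2 := by omega
  have hlow : ∑ i ∈ range j0, (n.choose i : ℝ) ≤ 4 / (L0 : ℝ) ^ 2 * 2 ^ n :=
    (low_bound n D hD0 j0 (by omega)).trans hnD
  have hhigh : Rj n j1 ≤ 4 / (L0 : ℝ) ^ 2 * 2 ^ n :=
    (high_bound n D hD0 j1 (by omega)).trans hnD
  -- sizes
  have hgr0 := hgr 0 (by rw [Nat.cast_zero]; positivity)
  rw [pow_zero, mul_one] at hgr0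
  have hbig : 32 * (n : ℝ) ≤ ε * 2 ^ n := by linarith
  set T := ⌊ε * 2 ^ n⌋₊ with hT
  have hT1 : ε * 2 ^ n - 1 ≤ T := (Nat.sub_one_lt_floor _).le
  set t := T / 3 with ht
  have ht1 : ((T : ℝ) - 2) / 3 ≤ t := by
    have : T ≤ 3 * t + 2 := by omega
    have h2 : (T : ℝ) ≤ 3 * t + 2 := by exact_mod_cast this
    linarith
  have ht2 : ε * 2 ^ n / 4 ≤ t := by linarith
  set s := t / m with hs
  have hmR : (0 : ℝ) < m := by exact_mod_cast hm0
  have hs1 : (t : ℝ) / m - 1 ≤ s := by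
    have h1 : t < m * (s + 1) := by
      rw [hs]
      exact Nat.lt_mul_div_succ t hm0
    have h2 : (t : ℝ) < m * (s + 1) := by exact_mod_cast h1
    have h3 : (t : ℝ) / m < s + 1 := by
      rw [div_lt_iff₀ hmR]
      linarith
    linarith
  have hmnR : (m : ℝ) ≤ n + 2 := by exact_mod_cast hmn
  have hs2 : ε * 2 ^ n / (8 * m) ≤ s := by
    refine le_trans ?_ hs1
    have h1 : ε * 2 ^ n / 4 / m ≤ (t : ℝ) / m := div_le_div_of_nonneg_right ht2 hmR.le
    have h2 : 1 ≤ ε * 2 ^ n / (8 * m) := by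
      rw [le_div_iff₀ (by positivity)]
      linarith
    have h3 : ε * 2 ^ n / 4 / m = 2 * (ε * 2 ^ n / (8 * m)) := by
      field_simp
      ring
    linarith
  set ρ : ℝ := ε / 32 / ((n : ℝ) + 2) ^ 2 with hρ
  have hρ0 : 0 < ρ := by positivity
  have hρ1 : ρ ≤ 1 := by
    rw [hρ, div_le_one (by positivity)]
    nlinarith
  set a : ℕ → ℝ := fun k => ε * 2 ^ n / 8 * ρ ^ k with ha
  have hanti : ∀ k ≤ m, a m ≤ a k := by
    intro k hk
    rw [ha]
    exact mul_le_mul_of_nonneg_left (pow_le_pow_of_le_one hρ0.le hρ1 hk) (by positivity)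
  have hmK : (m : ℝ) ≤ (L0 + 2) * Real.sqrt n := by
    have h1 : (m : ℝ) ≤ D + 2 := by exact_mod_cast hmD
    have h2 : (r : ℝ) ≤ Real.sqrt n := by
      apply Real.le_sqrt_of_sq_le
      have : r ^ 2 ≤ n := by rw [sq]; exact hr1
      exact_mod_cast this
    have h3 : (1 : ℝ) ≤ Real.sqrt n := by
      rw [show (1 : ℝ) = Real.sqrt 1 by simp]
      exact Real.sqrt_le_sqrt (by linarith)
    rw [hD] at h1
    push_cast at h1
    nlinarith
  have ham : (n : ℝ) ≤ a m := by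
    refine (hgr m hmK).trans ?_
    rw [ha]
    apply mul_le_mul_of_nonneg_right _ (by positivity)
    have : (0 : ℝ) < 2 ^ n := by positivity
    nlinarith
  have hmain := main_bound (n := n) j0 m s t t a n
    (fun k _ => by rw [ha]; positivity) (fun k hk => ham.trans (hanti k hk)) (by
      intro k _
      have e1 : 4 * a (k + 1) = a k * (4 * ρ) := by
        rw [ha]
        simp only
        ring
      rw [e1, div_mul_eq_mul_div, mul_div_assoc]
      apply mul_le_mul_of_nonneg_left _ (by rw [ha]; positivity)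
      have e2 : ε * 2 ^ n / (8 * m) / ((n + 1) * 2 ^ n) ≤ (s : ℝ) / ((n + 1) * 2 ^ n) :=
        div_le_div_of_nonneg_right hs2 (by positivity)
      refine le_trans ?_ e2
      have e3 : ε * 2 ^ n / (8 * m) / (((n : ℝ) + 1) * 2 ^ n) =
          ε / (8 * (m * ((n : ℝ) + 1))) := by
        field_simp
      rw [e3, hρ]
      have e4 : 4 * (ε / 32 / ((n : ℝ) + 2) ^ 2) = ε / (8 * ((n : ℝ) + 2) ^ 2) := by
        field_simp
        ring
      rw [e4]
      apply div_le_div_of_nonneg_left hε.le (by positivity)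
      have : (m : ℝ) * ((n : ℝ) + 1) ≤ ((n : ℝ) + 2) ^ 2 := by nlinarith
      linarith) (by linarith) (by
      have : (0 : ℝ) < t := by
        have : 0 < ε * 2 ^ n / 4 := by positivity
        linarith
      exact_mod_cast this) (by
      rw [ha]
      simp only [pow_zero, mul_one]
      have e1 : 4 / (L0 : ℝ) ^ 2 * 2 ^ n ≤ ε / 8 * 2 ^ n :=
        mul_le_mul_of_nonneg_right hL1 (by positivity)
      linarith)
  have hle : t + (m * s + t) ≤ T := by
    have h1 : m * s ≤ t := Nat.mul_div_le t m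
    omega
  refine (iter_Fail_anti hle _).trans (hmain.trans ?_)
  rw [hj01]
  have htR : (0 : ℝ) < t := by
    have : 0 < ε * 2 ^ n / 4 := by positivity
    linarith
  have e1 : (m : ℝ) * Real.exp (-(n : ℝ)) ≤ δ / 2 := by
    refine le_trans ?_ hexp
    exact mul_le_mul_of_nonneg_right hmnR (Real.exp_pos _).le
  have e2 : Rj n j1 / t ≤ δ / 2 := by
    refine le_trans ?_ hL2
    calc Rj n j1 / t ≤ (4 / (L0 : ℝ) ^ 2 * 2 ^ n) / (ε * 2 ^ n / 4) := by
          apply div_le_div₀ (by positivity) hhigh (by positivity) ht2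
      _ = 16 / (ε * (L0 : ℝ) ^ 2) := by
          field_simp
          ring
  linarith

end Pool.Agent.Q211.DL
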