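import Mathlib

/-!
# Diffusion limited aggregation on the hypercube: one step
-/

set_option autoImplicit false

namespace Pool.Agent.Q211.DL

open Finset

variable {n : ℕ}

/-- The decreasing walk from `univ` in which coordinate `j` is switched off in step `π j + 1`:
`walk π i` is the set of coordinates still on after `i` steps. -/
def walk (π : Equiv.Perm (Fin n)) (i : ℕ) : Finset (Fin n) :=
  univ.filter (fun j => i ≤ (π j : ℕ))

theorem walk_zero (π : Equiv.Perm (Fin n)) : walk π 0 = univ := by
  simp [walk]

theorem walk_last (π : Equiv.Perm (Fin n)) : walk π n = ∅ := by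
  rw [walk, filter_eq_empty_iff]
  intro j _
  exact not_le.2 (π j).2

theorem card_top (i : ℕ) : (univ.filter (fun k : Fin n => i ≤ (k : ℕ))).card = n - i := by
  have h1 : (univ.filter (fun k : Fin n => i ≤ (k : ℕ))) =
      univ \ (univ.filter (fun k : Fin n => (k : ℕ) < i)) := by
    ext k
    simp
  rw [h1, card_sdiff_of_subset (subset_univ _), Fin.card_filter_val_lt, card_univ,
    Fintype.card_fin]
  omega

theorem card_walk (π : Equiv.Perm (Fin n)) (i : ℕ) : (walk π i).card = n - i := by
  have h1 : (walk π i).map π.toEmbedding = univ.filter (fun k : Fin n => i ≤ (k : ℕ)) := by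
    ext k
    simp only [walk, mem_map, mem_filter, mem_univ, true_and, Equiv.toEmbedding_apply]
    constructor
    · rintro ⟨j, hj, rfl⟩
      exact hj
    · intro hk
      exact ⟨π.symm k, by simpa using hk, by simp⟩
  rw [← card_map π.toEmbedding, h1, card_top]

theorem sc_pos {α : Type*} {p q : α → Prop} [DecidablePred p] [DecidablePred q]
    (e : { x // p x } ≃ { x // q x }) (f : { x // ¬p x } ≃ { x // ¬q x }) (x : α) (hx : p x) :
    Equiv.subtypeCongr e f x = e ⟨x, hx⟩ := by
  simp [Equiv.subtypeCongr, Equiv.sumCompl_symm_apply_of_pos hx]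

theorem sc_neg {α : Type*} {p q : α → Prop} [DecidablePred p] [DecidablePred q]
    (e : { x // p x } ≃ { x // q x }) (f : { x // ¬p x } ≃ { x // ¬q x }) (x : α) (hx : ¬ p x) :
    Equiv.subtypeCongr e f x = f ⟨x, hx⟩ := by
  simp [Equiv.subtypeCongr, Equiv.sumCompl_symm_apply_of_neg hx]

/-- Many permutations lead through a given vertex. -/
theorem count_through (u : Finset (Fin n)) (i : ℕ) (hu : u.card = i) :
    i.factorial * (n - i).factorial ≤
      (univ.filter (fun π : Equiv.Perm (Fin n) => walk π (n - i) = u)).card := by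
  classical
  have hin : i ≤ n := by
    rw [← hu]
    exact (card_le_univ u).trans (by rw [Fintype.card_fin])
  set w : Finset (Fin n) := univ.filter (fun k : Fin n => n - i ≤ (k : ℕ)) with hw
  have hwc : w.card = i := by
    rw [hw, card_top]
    omega
  have c1 : Fintype.card {x // x ∈ u} = Fintype.card {x // x ∈ w} := by
    rw [Fintype.card_coe, Fintype.card_coe, hu, hwc]
  have c2 : Fintype.card {x // ¬ x ∈ u} = Fintype.card {x // ¬ x ∈ w} := by
    rw [Fintype.card_subtype_compl, Fintype.card_subtype_compl, c1]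
  let A := ({x // x ∈ u} ≃ {x // x ∈ w}) × ({x // ¬ x ∈ u} ≃ {x // ¬ x ∈ w})
  have hcard : Fintype.card A = i.factorial * (n - i).factorial := by
    show Fintype.card (({x // x ∈ u} ≃ {x // x ∈ w}) × ({x // ¬ x ∈ u} ≃ {x // ¬ x ∈ w})) = _
    rw [Fintype.card_prod, Fintype.card_equiv (Fintype.equivOfCardEq c1),
      Fintype.card_equiv (Fintype.equivOfCardEq c2), Fintype.card_subtype_compl,
      Fintype.card_coe, hu, Fintype.card_fin]
  rw [← hcard, ← card_univ]
  apply card_le_card_of_injOn (fun a : A => Equiv.subtypeCongr a.1 a.2)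
  · intro a _
    simp only [coe_filter, mem_univ, true_and, Set.mem_ofPred_eq]
    ext j
    have hmem : ∀ k : Fin n, k ∈ w ↔ n - i ≤ (k : ℕ) := by
      intro k
      rw [hw]
      simp
    simp only [walk, mem_filter, mem_univ, true_and]
    by_cases hj : j ∈ u
    · rw [sc_pos _ _ _ hj]
      exact ⟨fun _ => hj, fun _ => (hmem _).1 (a.1 ⟨j, hj⟩).2⟩
    · rw [sc_neg _ _ _ hj]
      exact ⟨fun h => absurd ((hmem _).2 h) (a.2 ⟨j, hj⟩).2, fun h => absurd h hj⟩
  · intro a _ b _ hab
    have hab' : Equiv.subtypeCongr a.1 a.2 = Equiv.subtypeCongr b.1 b.2 := hab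
    apply Prod.ext
    · ext ⟨x, hx⟩
      have := congrArg (fun π : Equiv.Perm (Fin n) => π x) hab'
      rw [sc_pos _ _ _ hx, sc_pos _ _ _ hx] at this
      rw [this]
    · ext ⟨x, hx⟩
      have := congrArg (fun π : Equiv.Perm (Fin n) => π x) hab'
      rw [sc_neg _ _ _ hx, sc_neg _ _ _ hx] at this
      rw [this]

open Classical in
/-- One step of the process from the state `C`: if `univ ∉ C`, the last vertex of the longest
initial segment of the walk which contains no vertex of `C` is added to `C`. -/
noncomputable def step (C : Finset (Finset (Fin n))) (π : Equiv.Perm (Fin n)) :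
    Finset (Finset (Fin n)) :=
  if univ ∈ C then C else insert (walk π (sInf {i | walk π i ∈ C} - 1)) C

theorem step_of_mem {C : Finset (Finset (Fin n))} (h : univ ∈ C) (π : Equiv.Perm (Fin n)) :
    step C π = C := by
  rw [step, if_pos h]

theorem subset_step (C : Finset (Finset (Fin n))) (π : Equiv.Perm (Fin n)) : C ⊆ step C π := by
  unfold step
  split_ifs
  · exact subset_rfl
  · exact subset_insert _ _

/-- The structure of a step: if the walk passes through a vertex of `C` of size `i`, the new vertex
has size larger than `i`. -/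
theorem step_spec {C : Finset (Finset (Fin n))} (h0 : ∅ ∈ C) (h : univ ∉ C)
    (π : Equiv.Perm (Fin n)) :
    ∃ v : Finset (Fin n), v ∉ C ∧ step C π = insert v C ∧
      ∀ i, i ≤ n → walk π (n - i) ∈ C → i < v.card := by
  have hne : {i | walk π i ∈ C}.Nonempty := ⟨n, by
    show walk π n ∈ C
    rw [walk_last]
    exact h0⟩
  have hmem : walk π (sInf {i | walk π i ∈ C}) ∈ C := Nat.sInf_mem hne
  set k := sInf {i | walk π i ∈ C} with hk
  have hk0 : k ≠ 0 := by
    intro h1
    rw [h1, walk_zero] at hmem
    exact h hmem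
  have hkn : k ≤ n := Nat.sInf_le (by
    show walk π n ∈ C
    rw [walk_last]
    exact h0)
  refine ⟨walk π (k - 1), ?_, ?_, ?_⟩
  · intro h1
    have h2 : k ≤ k - 1 := by
      conv_lhs => rw [hk]
      exact Nat.sInf_le h1
    omega
  · rw [step, if_neg h]
  · intro i hi h1
    have h2 : k ≤ n - i := Nat.sInf_le h1
    rw [card_walk]
    omega

/-- The number of vertices of `C` of size at least `j`. -/
def M (j : ℕ) (C : Finset (Finset (Fin n))) : ℕ := (C.filter (fun v => j ≤ v.card)).card

theorem M_mono {j : ℕ} {C C' : Finset (Finset (Fin n))} (h : C ⊆ C') : M j C ≤ M j C' :=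
  card_le_card (filter_subset_filter _ h)

theorem empty_mem_step {C : Finset (Finset (Fin n))} (h0 : ∅ ∈ C) (π : Equiv.Perm (Fin n)) :
    ∅ ∈ step C π := subset_step C π h0

theorem M_step_le {C : Finset (Finset (Fin n))} (h0 : ∅ ∈ C) (h : univ ∉ C) {j i : ℕ}
    (hij : j ≤ i) (hin : i ≤ n) (π : Equiv.Perm (Fin n)) (hπ : walk π (n - i) ∈ C) :
    M (j + 1) C + 1 ≤ M (j + 1) (step C π) := by
  obtain ⟨v, hv, hs, hv2⟩ := step_spec h0 h π
  have h1 : j + 1 ≤ v.card := by
    have := hv2 i hin hπ
    omega
  rw [hs, M, M, filter_insert, if_pos h1, card_insert_of_notMem]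
  intro h2
  exact hv (mem_filter.1 h2).1

/-- The probability of a set of permutations. -/
noncomputable def pr (A : Finset (Equiv.Perm (Fin n))) : ℝ := A.card / n.factorial

theorem pr_mono {A B : Finset (Equiv.Perm (Fin n))} (h : A ⊆ B) : pr A ≤ pr B := by
  unfold pr
  gcongr

/-- The probability of passing through `C` at level `i`. -/
theorem pr_through {C : Finset (Finset (Fin n))} {i : ℕ} (hin : i ≤ n) :
    ((C.filter (fun v => v.card = i)).card : ℝ) / (n.choose i) ≤
      pr (univ.filter (fun π : Equiv.Perm (Fin n) => walk π (n - i) ∈ C)) := by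
  classical
  have h1 : ((C.filter (fun v => v.card = i)).biUnion (fun u =>
      univ.filter (fun π : Equiv.Perm (Fin n) => walk π (n - i) = u))) ⊆
      univ.filter (fun π : Equiv.Perm (Fin n) => walk π (n - i) ∈ C) := by
    intro π hπ
    rw [mem_biUnion] at hπ
    obtain ⟨u, hu, hπ⟩ := hπ
    rw [mem_filter] at hu hπ ⊢
    exact ⟨mem_univ _, hπ.2 ▸ hu.1⟩
  have h2 : (C.filter (fun v => v.card = i)).card * (i.factorial * (n - i).factorial) ≤
      (univ.filter (fun π : Equiv.Perm (Fin n) => walk π (n - i) ∈ C)).card := by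
    refine le_trans ?_ (card_le_card h1)
    rw [card_biUnion]
    · rw [← smul_eq_mul, ← sum_const]
      exact sum_le_sum fun u hu => count_through u i (mem_filter.1 hu).2
    · intro u _ u' _ huu
      show Disjoint (univ.filter (fun π : Equiv.Perm (Fin n) => walk π (n - i) = u))
        (univ.filter (fun π : Equiv.Perm (Fin n) => walk π (n - i) = u'))
      rw [disjoint_left]
      intro π hπ hπ'
      rw [mem_filter] at hπ hπ'
      exact huu (hπ.2.symm.trans hπ'.2)
  have h3 : (n.choose i) * (i.factorial * (n - i).factorial) = n.factorial := by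
    rw [← mul_assoc]
    exact Nat.choose_mul_factorial_mul_factorial hin
  have h4 : (0 : ℝ) < n.choose i := by exact_mod_cast Nat.choose_pos hin
  have h5 : (0 : ℝ) < i.factorial * (n - i).factorial := by positivity
  have h6 : ((n.factorial : ℕ) : ℝ) = n.choose i * (i.factorial * (n - i).factorial) := by
    rw [← h3]
    push_cast
    ring
  unfold pr
  rw [h6, div_le_div_iff₀ h4 (by positivity)]
  have h7 : ((C.filter (fun v => v.card = i)).card : ℝ) * (i.factorial * (n - i).factorial) ≤
      (univ.filter (fun π : Equiv.Perm (Fin n) => walk π (n - i) ∈ C)).card := by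
    exact_mod_cast h2
  nlinarith

end Pool.Agent.Q211.DL
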