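import Pool.Agent.Q211.DL.Op

/-!
# Diffusion limited aggregation on the hypercube: the stages
-/

set_option autoImplicit false

namespace Pool.Agent.Q211.DL

open Finset

variable {n : ℕ}

/-- The sum of the sizes of the levels from `j` to `n - 1`. -/
noncomputable def Rj (n j : ℕ) : ℝ := ∑ i ∈ Ico j n, (n.choose i : ℝ)

theorem Rj_anti {j k : ℕ} (h : j ≤ k) : Rj n k ≤ Rj n j := by
  unfold Rj
  apply sum_le_sum_of_subset_of_nonneg
  · exact Ico_subset_Ico_left h
  · intro i _ _
    positivity

theorem Rj_nonneg (n j : ℕ) : 0 ≤ Rj n j := sum_nonneg fun i _ => by positivity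

/-- The potential. -/
noncomputable def Phi (C : Finset (Finset (Fin n))) : ℝ := Rj n (C.sup card)

theorem card_lt_of_notMem {C : Finset (Finset (Fin n))} (h : univ ∉ C) {u : Finset (Fin n)}
    (hu : u ∈ C) : u.card < n := by
  have h1 := card_le_univ u
  rw [Fintype.card_fin] at h1
  rcases h1.lt_or_eq with h2 | h2
  · exact h2
  · exfalso
    apply h
    have : u = univ := by
      rw [← card_eq_iff_eq_univ, h2, Fintype.card_fin]
    rw [← this]
    exact hu

theorem Op_Phi {C : Finset (Finset (Fin n))} (h0 : ∅ ∈ C) : Op Phi C ≤ Phi C - Fail C := by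
  by_cases h : univ ∈ C
  · rw [Fail, if_pos h, sub_zero]
    have : Op Phi C ≤ Op (fun _ => Phi C) C := Op_mono fun π => by rw [step_of_mem h]
    rwa [Op_const] at this
  · rw [Fail, if_neg h]
    obtain ⟨u, hu, huc⟩ := exists_mem_eq_sup C ⟨∅, h0⟩ card
    set k := C.sup card with hk
    have hkn : k < n := by
      rw [huc]
      exact card_lt_of_notMem h hu
    set A := univ.filter (fun π : Equiv.Perm (Fin n) => walk π (n - k) ∈ C) with hA
    have hch : (0 : ℝ) < n.choose k := by exact_mod_cast Nat.choose_pos hkn.le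
    have h1 : Op Phi C ≤ Phi C - (n.choose k : ℝ) * pr A := by
      apply Op_le_of
      · intro π hπ
        rw [hA, mem_filter] at hπ
        obtain ⟨v, hv, hs, hv2⟩ := step_spec h0 h π
        have h2 : k + 1 ≤ (step C π).sup card := by
          rw [hs]
          exact (hv2 k hkn.le hπ.2).trans_le (le_sup (f := card) (mem_insert_self v C))
        have h3 : Phi (step C π) ≤ Rj n (k + 1) := Rj_anti h2
        have h4 : Phi C = (n.choose k : ℝ) + Rj n (k + 1) := by
          rw [Phi, ← hk, Rj, Rj, sum_eq_sum_Ico_succ_bot hkn]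
        linarith
      · intro π
        apply Rj_anti
        exact sup_mono (subset_step C π)
    have h2 : 1 / (n.choose k : ℝ) ≤ pr A := by
      refine le_trans ?_ (pr_through (C := C) hkn.le)
      apply div_le_div_of_nonneg_right _ hch.le
      have : 0 < (C.filter (fun v => v.card = k)).card :=
        card_pos.2 ⟨u, mem_filter.2 ⟨hu, huc.symm⟩⟩
      exact_mod_cast this
    have h3 : 1 ≤ (n.choose k : ℝ) * pr A := by
      rw [div_le_iff₀ hch] at h2
      linarith
    linarith

theorem sum_iter_Fail (T : ℕ) : ∀ C : Finset (Finset (Fin n)), ∅ ∈ C →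
    ∑ k ∈ range T, Op^[k] Fail C + Op^[T] Phi C ≤ Phi C := by
  induction T with
  | zero =>
    intro C _
    simp
  | succ T ih =>
    intro C h0
    have h1 : Op^[T + 1] Phi C ≤ Op^[T] Phi C - Op^[T] Fail C := by
      rw [Function.iterate_succ_apply]
      have h2 : Op^[T] (Op Phi) C ≤ Op^[T] (fun C => Phi C + (-1) * Fail C) C :=
        iter_mono (fun C => ∅ ∈ C) (fun C hC π => empty_mem_step hC π)
          (fun C hC => by linarith [Op_Phi hC]) T C h0
      rw [iter_add, iter_smul] at h2
      linarith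
    rw [sum_range_succ]
    have := ih C h0
    linarith

theorem iter_Phi_nonneg (k : ℕ) (C : Finset (Finset (Fin n))) : 0 ≤ Op^[k] Phi C := by
  rw [← iter_const 0 k C]
  exact iter_mono (fun _ => True) (fun _ _ _ => trivial) (fun C _ => Rj_nonneg n _) k C trivial

/-- The last phase. -/
theorem final_phase (T j : ℕ) (C : Finset (Finset (Fin n))) (h0 : ∅ ∈ C) (hM : 1 ≤ M j C) :
    T * Op^[T] Fail C ≤ Rj n j := by
  have h1 := sum_iter_Fail T C h0
  have h2 := iter_Phi_nonneg T C
  have h3 : (T : ℝ) * Op^[T] Fail C ≤ ∑ k ∈ range T, Op^[k] Fail C := by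
    have : ∑ k ∈ range T, Op^[T] Fail C ≤ ∑ k ∈ range T, Op^[k] Fail C :=
      sum_le_sum fun k hk => iter_Fail_anti (mem_range.1 hk).le C
    rw [sum_const, card_range, nsmul_eq_mul] at this
    exact this
  have h4 : Phi C ≤ Rj n j := by
    apply Rj_anti
    obtain ⟨u, hu⟩ := card_pos.1 (lt_of_lt_of_le one_pos hM)
    rw [mem_filter] at hu
    exact hu.2.trans (le_sup (f := card) hu.1)
  linarith

/-- The chain of stages. -/
theorem chain (j0 m s T' : ℕ) (a : ℕ → ℝ) (L η : ℝ) (ha : ∀ k ≤ m, 0 ≤ a k)
    (hL : ∀ k ≤ m, L ≤ a k) (hstep : ∀ k < m, 4 * a (k + 1) ≤ a k / ((n + 1) * 2 ^ n) * s)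
    (ham : 0 < a m)
    (hη : ∀ C : Finset (Finset (Fin n)), ∅ ∈ C → 1 ≤ M (j0 + m) C → Op^[T'] Fail C ≤ η)
    (hη0 : 0 ≤ η) (d : ℕ) :
    d ≤ m → ∀ C : Finset (Finset (Fin n)), ∅ ∈ C → a (m - d) ≤ M (j0 + (m - d)) C →
      Op^[d * s + T'] Fail C ≤ d * Real.exp (-L) + η := by
  induction d with
  | zero =>
    intro _ C h0 haM
    rw [Nat.sub_zero] at haM
    have h1 : 1 ≤ M (j0 + m) C := by
      have : (0 : ℝ) < M (j0 + m) C := lt_of_lt_of_le ham haM
      exact_mod_cast this
    have := hη C h0 h1
    simpa using this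
  | succ d ih =>
    intro hd C h0 haM
    set k := m - (d + 1) with hk
    have hk1 : m - d = k + 1 := by omega
    have hkm : k < m := by omega
    rw [hk1] at ih
    have e1 : (d + 1) * s + T' = s + (d * s + T') := by ring
    rw [e1, Function.iterate_add_apply]
    have h1 : Op^[s] (Op^[d * s + T'] Fail) C ≤
        Op^[s] (fun C => Bad (j0 + k) (a (k + 1)) C + (d * Real.exp (-L) + η)) C := by
      refine iter_mono (fun C => ∅ ∈ C) (fun C hC π => empty_mem_step hC π) ?_ s C h0
      intro C' hC'
      have hpos : 0 ≤ (d : ℝ) * Real.exp (-L) + η := by positivity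
      by_cases hu : univ ∈ C'
      · rw [iter_Fail_of_mem _ hu]
        have := Bad_nonneg (j0 + k) (a (k + 1)) C'
        linarith
      · by_cases hlt : (M (j0 + k + 1) C' : ℝ) < a (k + 1)
        · rw [Bad, if_pos ⟨hu, hlt⟩]
          have := iter_Fail_le_one (d * s + T') C'
          linarith
        · push Not at hlt
          have h2 := ih (by omega) C' hC' (by rw [← add_assoc]; exact hlt)
          have := Bad_nonneg (j0 + k) (a (k + 1)) C'
          linarith
    rw [iter_add, iter_const] at h1
    have h2 := stage (j0 + k) (ha k hkm.le) s (hstep k hkm) (ha (k + 1) hkm) C h0 haM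
    have h3 : Real.exp (-(a (k + 1))) ≤ Real.exp (-L) :=
      Real.exp_le_exp.2 (neg_le_neg (hL (k + 1) hkm))
    push_cast
    linarith

theorem iter_card (g : Finset (Finset (Fin n)) → ℝ) (B : ℝ) (t : ℕ) :
    ∀ (c : ℕ) (C : Finset (Finset (Fin n))), ∅ ∈ C → (univ ∈ C ∨ C.card = c) →
      (∀ C' : Finset (Finset (Fin n)), ∅ ∈ C' → (univ ∈ C' ∨ C'.card = c + t) → g C' ≤ B) →
      Op^[t] g C ≤ B := by
  induction t with
  | zero =>
    intro c C h0 hC hg
    exact hg C h0 hC
  | succ t ih =>
    intro c C h0 hC hg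
    rw [Function.iterate_succ_apply']
    have : Op (Op^[t] g) C ≤ Op (fun _ => B) C := by
      apply Op_mono
      intro π
      apply ih (c + 1) _ (empty_mem_step h0 π)
      · by_cases hu : univ ∈ C
        · exact Or.inl (subset_step C π hu)
        · right
          rcases hC with h | h
          · exact absurd h hu
          · obtain ⟨v, hv, hs, _⟩ := step_spec h0 hu π
            rw [hs, card_insert_of_notMem hv, h]
      · intro C' h0' h
        apply hg C' h0'
        rwa [add_comm t 1, ← add_assoc]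
    rwa [Op_const] at this

theorem card_low (j : ℕ) : ((univ.filter (fun v : Finset (Fin n) => v.card < j)).card : ℝ) =
    ∑ i ∈ range j, (n.choose i : ℝ) := by
  have : (univ.filter (fun v : Finset (Fin n) => v.card < j)).card =
      ∑ i ∈ range j, n.choose i := by
    rw [card_eq_sum_card_fiberwise (f := fun v => v.card) (t := range j)]
    · apply sum_congr rfl
      intro i hi
      rw [mem_range] at hi
      have h1 : (univ.filter (fun v : Finset (Fin n) => v.card < j)).filter
          (fun v => v.card = i) = powersetCard i univ := by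
        ext v
        simp only [mem_filter, mem_univ, true_and, mem_powersetCard, subset_univ]
        constructor
        · exact fun h => h.2
        · intro h
          exact ⟨by omega, h⟩
      rw [h1, card_powersetCard, card_univ, Fintype.card_fin]
    · intro v hv
      rw [mem_coe, mem_filter] at hv
      rw [mem_coe, mem_range]
      exact hv.2
  rw [this]
  push_cast
  rfl

theorem M_ge (j : ℕ) (C : Finset (Finset (Fin n))) :
    (C.card : ℝ) - ∑ i ∈ range j, (n.choose i : ℝ) ≤ M j C := by
  rw [← card_low]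
  have h1 : C.card = (C.filter (fun v => j ≤ v.card)).card +
      (C.filter (fun v => ¬ j ≤ v.card)).card := (card_filter_add_card_filter_not _).symm
  have h2 : (C.filter (fun v => ¬ j ≤ v.card)).card ≤
      (univ.filter (fun v : Finset (Fin n) => v.card < j)).card := by
    apply card_le_card
    intro v hv
    rw [mem_filter] at hv ⊢
    exact ⟨mem_univ _, by omega⟩
  have h3 : (C.card : ℝ) = M j C + (C.filter (fun v => ¬ j ≤ v.card)).card := by
    rw [M]
    exact_mod_cast h1
  have h4 : ((C.filter (fun v => ¬ j ≤ v.card)).card : ℝ) ≤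
      (univ.filter (fun v : Finset (Fin n) => v.card < j)).card := by exact_mod_cast h2
  linarith

/-- Everything together. -/
theorem main_bound (j0 m s t0 T' : ℕ) (a : ℕ → ℝ) (L : ℝ) (ha : ∀ k ≤ m, 0 ≤ a k)
    (hL : ∀ k ≤ m, L ≤ a k) (hstep : ∀ k < m, 4 * a (k + 1) ≤ a k / ((n + 1) * 2 ^ n) * s)
    (ham : 0 < a m) (hT' : 0 < T')
    (ha0 : a 0 ≤ t0 - ∑ i ∈ range j0, (n.choose i : ℝ)) :
    Op^[t0 + (m * s + T')] Fail ({∅} : Finset (Finset (Fin n))) ≤
      m * Real.exp (-L) + Rj n (j0 + m) / T' := by
  have hT0 : (0 : ℝ) < T' := by exact_mod_cast hT'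
  have hη : ∀ C : Finset (Finset (Fin n)), ∅ ∈ C → 1 ≤ M (j0 + m) C →
      Op^[T'] Fail C ≤ Rj n (j0 + m) / T' := by
    intro C h0 hM
    rw [le_div_iff₀ hT0, mul_comm]
    exact final_phase T' (j0 + m) C h0 hM
  have hη0 : 0 ≤ Rj n (j0 + m) / T' := div_nonneg (Rj_nonneg _ _) hT0.le
  rw [Function.iterate_add_apply]
  refine iter_card _ _ t0 1 {∅} (mem_singleton_self _) (Or.inr (card_singleton _)) ?_
  intro C h0 hC
  have hpos : 0 ≤ (m : ℝ) * Real.exp (-L) + Rj n (j0 + m) / T' := by positivity
  by_cases hu : univ ∈ C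
  · rw [iter_Fail_of_mem _ hu]
    exact hpos
  · rcases hC with h | h
    · exact absurd h hu
    · have h1 := chain j0 m s T' a L _ ha hL hstep ham hη hη0 m le_rfl C h0 (by
        rw [Nat.sub_self, add_zero]
        refine ha0.trans (le_trans ?_ (M_ge j0 C))
        rw [h]
        push_cast
        linarith)
      exact h1

end Pool.Agent.Q211.DL
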