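import Pool.Agent.Q211.DL.Chain

/-!
# Diffusion limited aggregation on the hypercube: numerical estimates
-/

set_option autoImplicit false

namespace Pool.Agent.Q211.DL

open Finset

theorem pascal_sum (n : ℕ) (f : ℕ → ℝ) :
    ∑ i ∈ range (n + 2), ((n + 1).choose i : ℝ) * f i =
      ∑ i ∈ range (n + 1), (n.choose i : ℝ) * (f i + f (i + 1)) := by
  rw [sum_range_succ']
  have h1 : ∀ i, ((n + 1).choose (i + 1) : ℝ) * f (i + 1) =
      (n.choose i : ℝ) * f (i + 1) + (n.choose (i + 1) : ℝ) * f (i + 1) := by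
    intro i
    rw [Nat.choose_succ_succ]
    push_cast
    ring
  simp only [h1]
  rw [sum_add_distrib]
  have h2 : ∑ i ∈ range (n + 1), (n.choose (i + 1) : ℝ) * f (i + 1) +
      (n.choose 0 : ℝ) * f 0 = ∑ i ∈ range (n + 1), (n.choose i : ℝ) * f i := by
    rw [← sum_range_succ' (fun i => (n.choose i : ℝ) * f i), sum_range_succ]
    simp
  have h3 : ((n + 1).choose 0 : ℝ) = n.choose 0 := by simp
  rw [h3, add_assoc, h2, ← sum_add_distrib]
  exact sum_congr rfl fun i _ => by ring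

theorem sq_sum (n : ℕ) :
    ∑ i ∈ range (n + 1), (n.choose i : ℝ) * (2 * (i : ℝ) - (n : ℝ)) ^ 2 =
      (n : ℝ) * 2 ^ n := by
  induction n with
  | zero => simp
  | succ n ih =>
    rw [show n + 1 + 1 = n + 2 from rfl, pascal_sum n (fun i => (2 * (i : ℝ) - ((n + 1 : ℕ) : ℝ)) ^ 2)]
    have h1 : ∀ i : ℕ, (n.choose i : ℝ) * ((2 * (i : ℝ) - ((n + 1 : ℕ) : ℝ)) ^ 2 +
        (2 * ((i + 1 : ℕ) : ℝ) - ((n + 1 : ℕ) : ℝ)) ^ 2) =
        2 * ((n.choose i : ℝ) * (2 * i - n) ^ 2) + 2 * (n.choose i : ℝ) := by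
      intro i
      push_cast
      ring
    simp only [h1]
    rw [sum_add_distrib, ← mul_sum, ← mul_sum, ih]
    have h2 : ∑ i ∈ range (n + 1), (n.choose i : ℝ) = 2 ^ n := by
      have := Nat.sum_range_choose n
      exact_mod_cast this
    rw [h2]
    push_cast
    ring

theorem tail_bound (n : ℕ) (A : Finset ℕ) (hA : A ⊆ range (n + 1)) (D : ℝ) (hD : 0 < D)
    (h : ∀ i ∈ A, D ^ 2 ≤ (2 * (i : ℝ) - n) ^ 2) :
    ∑ i ∈ A, (n.choose i : ℝ) ≤ n * 2 ^ n / D ^ 2 := by
  rw [le_div_iff₀ (by positivity), sum_mul, ← sq_sum]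
  refine (sum_le_sum fun i hi => mul_le_mul_of_nonneg_left (h i hi) (by positivity)).trans ?_
  exact sum_le_sum_of_subset_of_nonneg hA fun i _ _ => by positivity

theorem low_bound (n D : ℕ) (hD : 0 < D) (j : ℕ) (hj : 2 * j + D ≤ n) :
    ∑ i ∈ range j, (n.choose i : ℝ) ≤ n * 2 ^ n / (D : ℝ) ^ 2 := by
  apply tail_bound n (range j) _ D (by exact_mod_cast hD)
  · intro i hi
    rw [mem_range] at hi
    have h1 : 2 * (i : ℝ) + D ≤ n := by
      have : 2 * i + D ≤ n := by omega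
      exact_mod_cast this
    have h2 : (0 : ℝ) < D := by exact_mod_cast hD
    nlinarith
  · intro i hi
    rw [mem_range] at hi ⊢
    omega

theorem high_bound (n D : ℕ) (hD : 0 < D) (j : ℕ) (hj : n + D ≤ 2 * j) :
    Rj n j ≤ n * 2 ^ n / (D : ℝ) ^ 2 := by
  unfold Rj
  apply tail_bound n (Ico j n) _ D (by exact_mod_cast hD)
  · intro i hi
    rw [mem_Ico] at hi
    have h1 : (n : ℝ) + D ≤ 2 * i := by
      have : n + D ≤ 2 * i := by omega
      exact_mod_cast this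
    have h2 : (0 : ℝ) < D := by exact_mod_cast hD
    nlinarith
  · intro i hi
    rw [mem_Ico] at hi
    rw [mem_range]
    omega

open Filter Topology

/-- The growth estimate. -/
theorem growth (c K : ℝ) (hc : 0 < c) (hK : 0 < K) :
    ∀ᶠ n : ℕ in atTop, ∀ m : ℕ, (m : ℝ) ≤ K * Real.sqrt n →
      (n : ℝ) ≤ c * 2 ^ n * (c / ((n : ℝ) + 2) ^ 2) ^ m := by
  -- work with logarithms
  have h1 : Tendsto (fun n : ℕ => (n : ℝ) ^ (1 / 4 : ℝ)) atTop atTop :=
    (tendsto_rpow_atTop (by norm_num)).comp tendsto_natCast_atTop_atTop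
  have h2 : Tendsto (fun n : ℕ => (n : ℝ)) atTop atTop := tendsto_natCast_atTop_atTop
  filter_upwards [h1.eventually_ge_atTop (100 * (K + 1)), h2.eventually_ge_atTop (1 / c),
    h2.eventually_ge_atTop 9] with n hn1 hn2 hn3 m hm
  have hn0 : (0 : ℝ) < n := by linarith
  have hx : (0 : ℝ) < c / ((n : ℝ) + 2) ^ 2 := by positivity
  -- lower bound for the base
  have hbase : ((n : ℝ) ^ 4)⁻¹ ≤ c / ((n : ℝ) + 2) ^ 2 := by
    rw [div_eq_mul_inv]
    have h3 : 1 / (n : ℝ) ≤ c := by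
      rw [div_le_iff₀ hn0]
      rw [div_le_iff₀ hc] at hn2
      linarith
    have h4 : ((n : ℝ) + 2) ^ 2 ≤ (n : ℝ) ^ 3 := by nlinarith
    calc ((n : ℝ) ^ 4)⁻¹ = 1 / (n : ℝ) * ((n : ℝ) ^ 3)⁻¹ := by
          field_simp
      _ ≤ c * (((n : ℝ) + 2) ^ 2)⁻¹ := by
          apply mul_le_mul h3 _ (by positivity) hc.le
          exact inv_anti₀ (by positivity) h4
  have hcn : 1 / (n : ℝ) ≤ c := by
    rw [div_le_iff₀ hn0]
    rw [div_le_iff₀ hc] at hn2
    linarith
  have hlog : Real.log n ≤ 4 * (n : ℝ) ^ (1 / 4 : ℝ) := by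
    have := Real.log_le_rpow_div hn0.le (show (0 : ℝ) < 1 / 4 by norm_num)
    linarith
  -- the key inequality
  have hkey : (4 * (m : ℝ) + 2) * Real.log n ≤ n * Real.log 2 := by
    set y := (n : ℝ) ^ (1 / 4 : ℝ) with hy
    have hy1 : 100 * (K + 1) ≤ y := hn1
    have hy0 : 0 < y := by linarith
    have hy2 : y ^ 2 = Real.sqrt n := by
      rw [hy, ← Real.rpow_natCast, ← Real.rpow_mul hn0.le, Real.sqrt_eq_rpow]
      norm_num
    have hy4 : y ^ 4 = n := by
      rw [hy, ← Real.rpow_natCast, ← Real.rpow_mul hn0.le]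
      norm_num
    have hm' : (m : ℝ) ≤ K * y ^ 2 := by rw [hy2]; exact hm
    have h5 : (4 * (m : ℝ) + 2) * Real.log n ≤ (4 * (K * y ^ 2) + 2) * (4 * y) := by
      apply mul_le_mul _ hlog (Real.log_nonneg (by linarith)) (by positivity)
      linarith
    have h6 : (4 * (K * y ^ 2) + 2) * (4 * y) ≤ y ^ 4 * (1 / 2) := by
      have h7 : 1 ≤ y := by linarith
      have h8 : (4 * (K * y ^ 2) + 2) ≤ 4 * (K + 1) * y ^ 2 := by nlinarith
      calc (4 * (K * y ^ 2) + 2) * (4 * y) ≤ (4 * (K + 1) * y ^ 2) * (4 * y) := by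
            apply mul_le_mul_of_nonneg_right h8 (by positivity)
        _ = 16 * (K + 1) * y ^ 3 := by ring
        _ ≤ y * (1 / 2) * y ^ 3 := by
            apply mul_le_mul_of_nonneg_right _ (by positivity)
            linarith
        _ = y ^ 4 * (1 / 2) := by ring
    have h9 : (1 / 2 : ℝ) ≤ Real.log 2 := by
      have := Real.log_two_gt_d9
      linarith
    calc (4 * (m : ℝ) + 2) * Real.log n ≤ y ^ 4 * (1 / 2) := h5.trans h6
      _ ≤ n * Real.log 2 := by
        rw [hy4]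
        exact mul_le_mul_of_nonneg_left h9 hn0.le
  have hpow : (n : ℝ) ^ (4 * m + 2) ≤ 2 ^ n := by
    have h10 : (n : ℝ) ^ (4 * m + 2) = Real.exp ((4 * (m : ℝ) + 2) * Real.log n) := by
      rw [mul_comm _ (Real.log n), Real.exp_mul, Real.exp_log hn0]
      have : (4 * (m : ℝ) + 2) = ((4 * m + 2 : ℕ) : ℝ) := by push_cast; ring
      rw [this, Real.rpow_natCast]
    have h11 : (2 : ℝ) ^ n = Real.exp (n * Real.log 2) := by
      rw [mul_comm, Real.exp_mul, Real.exp_log (by norm_num), Real.rpow_natCast]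
    rw [h10, h11]
    exact Real.exp_le_exp.2 hkey
  calc (n : ℝ) = 1 / (n : ℝ) * (n : ℝ) ^ (4 * m + 2) * ((n : ℝ) ^ 4)⁻¹ ^ m := by
        rw [inv_pow, ← pow_mul, pow_add]
        field_simp
    _ ≤ c * 2 ^ n * (c / ((n : ℝ) + 2) ^ 2) ^ m := by
        apply mul_le_mul
        · exact mul_le_mul hcn hpow (by positivity) hc.le
        · exact pow_le_pow_left₀ (by positivity) hbase m
        · positivity
        · positivity

end Pool.Agent.Q211.DL
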