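import Pool.Agent.Q211.DL.Basic

/-!
# Diffusion limited aggregation on the hypercube: the Markov operator
-/

set_option autoImplicit false

namespace Pool.Agent.Q211.DL

open Finset

variable {n : ℕ}

/-- The Markov operator of the process. -/
noncomputable def Op (g : Finset (Finset (Fin n)) → ℝ) (C : Finset (Finset (Fin n))) : ℝ :=
  (∑ π : Equiv.Perm (Fin n), g (step C π)) / n.factorial

theorem fact_pos : (0 : ℝ) < n.factorial := by exact_mod_cast n.factorial_pos

theorem Op_mono {g h : Finset (Finset (Fin n)) → ℝ} {C : Finset (Finset (Fin n))}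
    (H : ∀ π, g (step C π) ≤ h (step C π)) : Op g C ≤ Op h C := by
  unfold Op
  exact div_le_div_of_nonneg_right (sum_le_sum fun π _ => H π) fact_pos.le

theorem Op_const (c : ℝ) (C : Finset (Finset (Fin n))) : Op (fun _ => c) C = c := by
  unfold Op
  rw [sum_const, card_univ, Fintype.card_perm, Fintype.card_fin, nsmul_eq_mul]
  field_simp

theorem Op_smul (c : ℝ) (g : Finset (Finset (Fin n)) → ℝ) (C : Finset (Finset (Fin n))) :
    Op (fun C => c * g C) C = c * Op g C := by
  unfold Op
  rw [← mul_sum, mul_div_assoc]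

theorem Op_add (g h : Finset (Finset (Fin n)) → ℝ) (C : Finset (Finset (Fin n))) :
    Op (fun C => g C + h C) C = Op g C + Op h C := by
  unfold Op
  rw [sum_add_distrib, add_div]

/-- Iterates preserve inequalities on closed sets of states. -/
theorem iter_mono (S : Finset (Finset (Fin n)) → Prop) (hS : ∀ C, S C → ∀ π, S (step C π))
    {g h : Finset (Finset (Fin n)) → ℝ} (H : ∀ C, S C → g C ≤ h C) (k : ℕ) :
    ∀ C, S C → Op^[k] g C ≤ Op^[k] h C := by
  induction k with
  | zero => exact H
  | succ k ih =>
    intro C hC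
    rw [Function.iterate_succ_apply', Function.iterate_succ_apply']
    exact Op_mono fun π => ih _ (hS C hC π)

theorem iter_smul (c : ℝ) (g : Finset (Finset (Fin n)) → ℝ) (k : ℕ)
    (C : Finset (Finset (Fin n))) : Op^[k] (fun C => c * g C) C = c * Op^[k] g C := by
  induction k generalizing C with
  | zero => rfl
  | succ k ih =>
    rw [Function.iterate_succ_apply', Function.iterate_succ_apply', ← Op_smul]
    congr 1
    funext C'
    exact ih C'

theorem iter_add (g h : Finset (Finset (Fin n)) → ℝ) (k : ℕ)
    (C : Finset (Finset (Fin n))) :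
    Op^[k] (fun C => g C + h C) C = Op^[k] g C + Op^[k] h C := by
  induction k generalizing C with
  | zero => rfl
  | succ k ih =>
    rw [Function.iterate_succ_apply', Function.iterate_succ_apply',
      Function.iterate_succ_apply', ← Op_add]
    congr 1
    funext C'
    exact ih C'

theorem iter_const (c : ℝ) (k : ℕ) (C : Finset (Finset (Fin n))) :
    Op^[k] (fun _ => c) C = c := by
  induction k generalizing C with
  | zero => rfl
  | succ k ih =>
    rw [Function.iterate_succ_apply']
    have : (Op^[k] fun _ => c) = fun _ : Finset (Finset (Fin n)) => c := by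
      funext C'
      exact ih C'
    rw [this, Op_const]

open Classical in
/-- The indicator that the process has not ended. -/
noncomputable def Fail (C : Finset (Finset (Fin n))) : ℝ := if univ ∈ C then 0 else 1

theorem Fail_nonneg (C : Finset (Finset (Fin n))) : 0 ≤ Fail C := by
  unfold Fail
  split_ifs <;> norm_num

theorem Fail_le_one (C : Finset (Finset (Fin n))) : Fail C ≤ 1 := by
  unfold Fail
  split_ifs <;> norm_num

theorem iter_Fail_nonneg (k : ℕ) (C : Finset (Finset (Fin n))) : 0 ≤ Op^[k] Fail C := by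
  rw [← iter_const 0 k C]
  exact iter_mono (fun _ => True) (fun _ _ _ => trivial) (fun C _ => Fail_nonneg C) k C trivial

theorem iter_Fail_le_one (k : ℕ) (C : Finset (Finset (Fin n))) : Op^[k] Fail C ≤ 1 := by
  rw [← iter_const 1 k C]
  exact iter_mono (fun _ => True) (fun _ _ _ => trivial) (fun C _ => Fail_le_one C) k C trivial

theorem iter_Fail_of_mem (k : ℕ) {C : Finset (Finset (Fin n))} (h : univ ∈ C) :
    Op^[k] Fail C = 0 := by
  apply le_antisymm _ (iter_Fail_nonneg k C)
  rw [← iter_const 0 k C]
  refine iter_mono (fun C => univ ∈ C) (fun C hC π => subset_step C π hC) ?_ k C h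
  intro C hC
  rw [Fail, if_pos hC]

theorem Op_Fail_le (C : Finset (Finset (Fin n))) : Op Fail C ≤ Fail C := by
  by_cases h : univ ∈ C
  · have := iter_Fail_of_mem 1 h
    rw [Function.iterate_one] at this
    rw [this]
    exact Fail_nonneg C
  · have := iter_Fail_le_one 1 C
    rw [Function.iterate_one] at this
    rw [Fail, if_neg h]
    exact this

theorem iter_Fail_anti {k l : ℕ} (h : k ≤ l) (C : Finset (Finset (Fin n))) :
    Op^[l] Fail C ≤ Op^[k] Fail C := by
  obtain ⟨d, rfl⟩ := Nat.exists_eq_add_of_le h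
  rw [Function.iterate_add_apply]
  refine iter_mono (fun _ => True) (fun _ _ _ => trivial) (fun C _ => ?_) k C trivial
  induction d generalizing C with
  | zero => exact le_rfl
  | succ d ih =>
    rw [Function.iterate_succ_apply]
    refine le_trans (iter_mono (fun _ => True) (fun _ _ _ => trivial)
      (fun C _ => Op_Fail_le C) d C trivial) ?_
    exact ih (by omega) C

/-- An upper bound for `Op g C` from a decrease on a set of permutations. -/
theorem Op_le_of {g : Finset (Finset (Fin n)) → ℝ} {C : Finset (Finset (Fin n))}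
    (A : Finset (Equiv.Perm (Fin n))) {x d : ℝ} (h1 : ∀ π ∈ A, g (step C π) ≤ x - d)
    (h2 : ∀ π, g (step C π) ≤ x) : Op g C ≤ x - d * pr A := by
  classical
  have h3 : ∑ π : Equiv.Perm (Fin n), g (step C π) ≤
      ∑ π : Equiv.Perm (Fin n), (x - d * (if π ∈ A then 1 else 0)) := by
    apply sum_le_sum
    intro π _
    split_ifs with h
    · rw [mul_one]
      exact h1 π h
    · rw [mul_zero, sub_zero]
      exact h2 π
  have h4 : ∑ π : Equiv.Perm (Fin n), (x - d * (if π ∈ A then 1 else 0)) =
      n.factorial * x - d * A.card := by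
    rw [sum_sub_distrib, sum_const, card_univ, Fintype.card_perm, Fintype.card_fin,
      nsmul_eq_mul, ← mul_sum, sum_boole]
    simp
  unfold Op pr
  rw [div_le_iff₀ fact_pos]
  have hf := fact_pos (n := n)
  have h5 : (x - d * ((A.card : ℝ) / n.factorial)) * n.factorial =
      n.factorial * x - d * A.card := by
    field_simp
  rw [h5, ← h4]
  exact h3

theorem choose_le_two_pow' (i : ℕ) : ((n.choose i : ℕ) : ℝ) ≤ 2 ^ n := by
  have : n.choose i ≤ 2 ^ n := Nat.choose_le_two_pow n i
  exact_mod_cast this

/-- The set of walks which raise `M (j + 1)`. -/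
noncomputable def Up (j : ℕ) (C : Finset (Finset (Fin n))) : Finset (Equiv.Perm (Fin n)) :=
  univ.filter (fun π => M (j + 1) C + 1 ≤ M (j + 1) (step C π))

theorem pr_up {C : Finset (Finset (Fin n))} (h0 : ∅ ∈ C) (h : univ ∉ C) (j : ℕ) :
    (M j C : ℝ) / ((n + 1) * 2 ^ n) ≤ pr (Up j C) := by
  have h1 : ∀ i ∈ (range (n + 1)).filter (fun i => j ≤ i),
      ((C.filter (fun v => v.card = i)).card : ℝ) / 2 ^ n ≤ pr (Up j C) := by
    intro i hi
    rw [mem_filter, mem_range] at hi
    have hin : i ≤ n := by omega
    refine le_trans ?_ ((pr_through (C := C) hin).trans (pr_mono ?_))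
    · apply div_le_div_of_nonneg_left (by positivity) _ (choose_le_two_pow' i)
      exact_mod_cast Nat.choose_pos hin
    · intro π hπ
      rw [mem_filter] at hπ
      rw [Up, mem_filter]
      exact ⟨mem_univ _, M_step_le h0 h hi.2 hin π hπ.2⟩
  have h2 : (M j C : ℝ) = ∑ i ∈ (range (n + 1)).filter (fun i => j ≤ i),
      ((C.filter (fun v => v.card = i)).card : ℝ) := by
    have : M j C = ∑ i ∈ (range (n + 1)).filter (fun i => j ≤ i),
        (C.filter (fun v => v.card = i)).card := by
      rw [M, card_eq_sum_card_fiberwise (f := fun v => v.card)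
        (t := (range (n + 1)).filter (fun i => j ≤ i))]
      · apply sum_congr rfl
        intro i hi
        rw [mem_filter] at hi
        rw [filter_filter]
        congr 1
        ext v
        simp only [mem_filter]
        constructor
        · rintro ⟨a, _, b⟩
          exact ⟨a, b⟩
        · rintro ⟨a, b⟩
          exact ⟨a, by rw [b]; exact hi.2, b⟩
      · intro v hv
        rw [mem_coe, mem_filter] at hv
        rw [mem_coe, mem_filter, mem_range]
        refine ⟨?_, hv.2⟩
        have := card_le_univ v
        rw [Fintype.card_fin] at this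
        exact Nat.lt_succ_of_le this
    rw [this]
    push_cast
    rfl
  have h3 : (M j C : ℝ) / 2 ^ n ≤ (n + 1) * pr (Up j C) := by
    rw [h2, sum_div]
    refine (sum_le_sum h1).trans ?_
    rw [sum_const, nsmul_eq_mul]
    apply mul_le_mul_of_nonneg_right
    · have : ((range (n + 1)).filter (fun i => j ≤ i)).card ≤ n + 1 :=
        (card_filter_le _ _).trans (by rw [card_range])
      exact_mod_cast this
    · unfold pr
      positivity
  rw [div_le_iff₀ (by positivity)]
  rw [div_le_iff₀ (by positivity)] at h3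
  linarith

open Classical in
/-- The exponential functional. -/
noncomputable def gE (j : ℕ) (C : Finset (Finset (Fin n))) : ℝ :=
  if univ ∈ C then 0 else (1 / 2 : ℝ) ^ M (j + 1) C

theorem gE_nonneg (j : ℕ) (C : Finset (Finset (Fin n))) : 0 ≤ gE j C := by
  unfold gE
  split_ifs <;> positivity

theorem gE_le_one (j : ℕ) (C : Finset (Finset (Fin n))) : gE j C ≤ 1 := by
  unfold gE
  split_ifs
  · norm_num
  · exact pow_le_one₀ (by norm_num) (by norm_num)

/-- One step contracts the exponential functional. -/
theorem Op_gE {C : Finset (Finset (Fin n))} (h0 : ∅ ∈ C) (j : ℕ) {q : ℝ}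
    (hq : q ≤ (M j C : ℝ) / ((n + 1) * 2 ^ n)) : Op (gE j) C ≤ (1 - q / 2) * gE j C := by
  by_cases h : univ ∈ C
  · have h1 : gE j C = 0 := by rw [gE, if_pos h]
    have h2 : Op (gE j) C = 0 := by
      unfold Op
      rw [sum_eq_zero, zero_div]
      intro π _
      rw [step_of_mem h, h1]
    rw [h1, h2, mul_zero]
  · have h1 : gE j C = (1 / 2 : ℝ) ^ M (j + 1) C := by rw [gE, if_neg h]
    have h2 : Op (gE j) C ≤ gE j C - gE j C / 2 * pr (Up j C) := by
      apply Op_le_of
      · intro π hπ
        rw [Up, mem_filter] at hπ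
        have h3 : gE j (step C π) ≤ (1 / 2 : ℝ) ^ M (j + 1) (step C π) := by
          unfold gE
          split_ifs
          · positivity
          · exact le_rfl
        have h4 : (1 / 2 : ℝ) ^ M (j + 1) (step C π) ≤ (1 / 2 : ℝ) ^ (M (j + 1) C + 1) :=
          pow_le_pow_of_le_one (by norm_num) (by norm_num) hπ.2
        rw [pow_succ] at h4
        rw [h1]
        linarith
      · intro π
        have h3 : gE j (step C π) ≤ (1 / 2 : ℝ) ^ M (j + 1) (step C π) := by
          unfold gE
          split_ifs
          · positivity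
          · exact le_rfl
        rw [h1]
        refine h3.trans (pow_le_pow_of_le_one (by norm_num) (by norm_num) ?_)
        exact M_mono (subset_step C π)
    have h3 := pr_up h0 h j
    have h4 := gE_nonneg j C
    nlinarith

theorem pr_le_one (A : Finset (Equiv.Perm (Fin n))) : pr A ≤ 1 := by
  unfold pr
  rw [div_le_one fact_pos]
  have : A.card ≤ n.factorial := by
    refine (card_le_univ A).trans ?_
    rw [Fintype.card_perm, Fintype.card_fin]
  exact_mod_cast this

theorem iter_gE (j : ℕ) {a q : ℝ} (hq1 : q ≤ 2)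
    (hq : q = a / ((n + 1) * 2 ^ n)) (s : ℕ) :
    ∀ C : Finset (Finset (Fin n)), ∅ ∈ C → a ≤ M j C →
      Op^[s] (gE j) C ≤ (1 - q / 2) ^ s * gE j C := by
  induction s with
  | zero =>
    intro C _ _
    simp
  | succ s ih =>
    intro C h0 ha
    rw [Function.iterate_succ_apply']
    have h1 : Op (Op^[s] (gE j)) C ≤ Op (fun C => (1 - q / 2) ^ s * gE j C) C := by
      apply Op_mono
      intro π
      apply ih _ (empty_mem_step h0 π)
      refine ha.trans ?_
      exact_mod_cast M_mono (subset_step C π)
    rw [Op_smul] at h1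
    refine h1.trans ?_
    have h2 : Op (gE j) C ≤ (1 - q / 2) * gE j C := by
      apply Op_gE h0
      rw [hq]
      exact div_le_div_of_nonneg_right ha (by positivity)
    have h3 : 0 ≤ (1 - q / 2) ^ s := pow_nonneg (by linarith) s
    calc (1 - q / 2) ^ s * Op (gE j) C ≤ (1 - q / 2) ^ s * ((1 - q / 2) * gE j C) :=
          mul_le_mul_of_nonneg_left h2 h3
      _ = (1 - q / 2) ^ (s + 1) * gE j C := by ring

open Classical in
/-- The indicator of a bad state after a stage. -/
noncomputable def Bad (j : ℕ) (b : ℝ) (C : Finset (Finset (Fin n))) : ℝ :=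
  if univ ∉ C ∧ (M (j + 1) C : ℝ) < b then 1 else 0

theorem Bad_nonneg (j : ℕ) (b : ℝ) (C : Finset (Finset (Fin n))) : 0 ≤ Bad j b C := by
  unfold Bad
  split_ifs <;> norm_num

/-- The stage estimate. -/
theorem stage (j : ℕ) {a b : ℝ} (ha : 0 ≤ a) (s : ℕ)
    (hb : 4 * b ≤ a / ((n + 1) * 2 ^ n) * s) (hb0 : 0 ≤ b)
    (C : Finset (Finset (Fin n))) (h0 : ∅ ∈ C) (haM : a ≤ M j C) :
    Op^[s] (Bad j b) C ≤ Real.exp (-b) := by
  set q : ℝ := a / ((n + 1) * 2 ^ n) with hq
  by_cases hu : univ ∈ C
  · have h1 : Op^[s] (Bad j b) C ≤ 0 := by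
      rw [← iter_const 0 s C]
      refine iter_mono (fun C => univ ∈ C) (fun C hC π => subset_step C π hC) ?_ s C hu
      intro C hC
      rw [Bad, if_neg]
      rintro ⟨h2, _⟩
      exact h2 hC
    exact h1.trans (Real.exp_pos _).le
  have hq0 : 0 ≤ q := by positivity
  have hq1 : q ≤ 1 := by
    refine le_trans ?_ (pr_le_one (Up j C))
    refine le_trans ?_ (pr_up h0 hu j)
    exact div_le_div_of_nonneg_right haM (by positivity)
  have h1 : ∀ C : Finset (Finset (Fin n)), True → Bad j b C ≤ (2 : ℝ) ^ b * gE j C := by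
    intro C _
    unfold Bad gE
    split_ifs with h2 h3 h3
    · exact absurd h3 h2.1
    · have h4 : (2 : ℝ) ^ b * (1 / 2 : ℝ) ^ M (j + 1) C =
          (2 : ℝ) ^ (b - M (j + 1) C) := by
        rw [Real.rpow_sub (by norm_num), Real.rpow_natCast, one_div, inv_pow]
        rfl
      rw [h4]
      exact Real.one_le_rpow (by norm_num) (by linarith [h2.2])
    · positivity
    · positivity
  have h2 : Op^[s] (Bad j b) C ≤ (2 : ℝ) ^ b * Op^[s] (gE j) C := by
    rw [← iter_smul]
    exact iter_mono (fun _ => True) (fun _ _ _ => trivial) h1 s C trivial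
  have h3 := iter_gE j (by linarith) hq s C h0 haM
  have h4 : (1 - q / 2) ^ s ≤ Real.exp (-(q / 2)) ^ s :=
    pow_le_pow_left₀ (by linarith) (by linarith [Real.add_one_le_exp (-(q / 2))]) s
  have h5 : Op^[s] (gE j) C ≤ Real.exp (-(2 * b)) := by
    refine h3.trans ?_
    have h6 : (1 - q / 2) ^ s * gE j C ≤ Real.exp (-(q / 2)) ^ s * 1 :=
      mul_le_mul h4 (gE_le_one j C) (gE_nonneg j C) (by positivity)
    refine h6.trans ?_
    rw [mul_one, ← Real.exp_nat_mul]
    apply Real.exp_le_exp.2
    nlinarith
  have h6 : (2 : ℝ) ^ b ≤ Real.exp b := by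
    rw [Real.rpow_def_of_pos (by norm_num)]
    apply Real.exp_le_exp.2
    have := Real.log_two_lt_d9
    nlinarith
  calc Op^[s] (Bad j b) C ≤ (2 : ℝ) ^ b * Op^[s] (gE j) C := h2
    _ ≤ Real.exp b * Real.exp (-(2 * b)) := by
      apply mul_le_mul h6 h5 _ (by positivity)
      refine le_trans ?_ (iter_mono (fun _ => True) (fun _ _ _ => trivial)
        (fun C _ => gE_nonneg j C) s C trivial)
      rw [iter_const]
    _ = Real.exp (-b) := by
      rw [← Real.exp_add]
      congr 1
      ring

end Pool.Agent.Q211.DL
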